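import Pool.Agent.Helper34.EC.Transfer

/-!
# MP_234a48_ag: the effective cone of the symmetric square of a curve of large genus
-/

set_option autoImplicit false

namespace Pool.Agent.Results.MP_234a48_ag.LargeGenus

open TensorProduct Pool.Agent.Helper34.EC.St

/-- For every `N` and every `g ≥ g₀(N)` there is a smooth projective curve `C` over `ℂ` of genus
`g` such that every nonzero section of `O(D₁) ⊠ O(D₂)` on `C × C` which vanishes to order `γ ≥ 1`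
along the diagonal satisfies `(deg D₁ + deg D₂) / 2 - γ ≥ (√g - g ^ (-N)) γ`. -/
theorem result (N : ℕ) : ∃ g₀ : ℕ, ∀ g ≥ g₀,
    ∃ (L : Type) (_ : Field L) (_ : Algebra ℂ L), IsCurve L g ∧
      ∀ (D₁ D₂ : Point L →₀ ℤ) (γ : ℕ) (x : L ⊗[ℂ] L), 1 ≤ γ → x ≠ 0 → IsSection D₁ D₂ γ x →
        (√g - 1 / (g : ℝ) ^ N) * γ ≤ ((deg D₁ : ℝ) + deg D₂) / 2 - γ := by
  obtain ⟨g₀, hg₀⟩ := Pool.Agent.Helper28.EC.near_nagata' N
  refine ⟨g₀, fun g hg => ?_⟩
  obtain ⟨L, iF, iA, hL, hgen, H⟩ := Pool.Agent.Helper34.EC.main g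
  exact ⟨L, iF, iA, isCurve_of hL hgen, fun D₁ D₂ γ x hγ hx0 hx =>
    slope_of (H _ 0 (fun m d hm hd => hg₀ g hg m d hm (by linarith))) D₁ D₂ γ hγ x hx0 hx⟩

end Pool.Agent.Results.MP_234a48_ag.LargeGenus
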